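import Mathlib

set_option autoImplicit false

namespace Pool.Agent.Results.MP_7f565b_co.Both

open SimpleGraph

/-- every `s ∈ S` has a private neighbour: a vertex of `N[s]` outside `N[S \ {s}]` -/
def Irred {V : Type} (G : SimpleGraph V) (S : Finset V) : Prop :=
  ∀ s ∈ S, ∃ w, (w = s ∨ G.Adj s w) ∧ ∀ t ∈ S, t ≠ s → ¬ (w = t ∨ G.Adj t w)

/-- lower irredundance number -/
noncomputable def ir {V : Type} (G : SimpleGraph V) : ℕ :=
  sInf {k | ∃ S : Finset V, Maximal (Irred G) S ∧ S.card = k}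

/-- domination number -/
noncomputable def gam {V : Type} (G : SimpleGraph V) : ℕ :=
  sInf {k | ∃ S : Finset V, (∀ v, ∃ s ∈ S, v = s ∨ G.Adj s v) ∧ S.card = k}

/-- adding any missing edge lowers the parameter -/
def Critical {V : Type} (p : SimpleGraph V → ℕ) (G : SimpleGraph V) : Prop :=
  ∀ u v, u ≠ v → ¬ G.Adj u v → p (G ⊔ edge u v) < p G

lemma Irred.mono {V : Type} {G : SimpleGraph V} {S T : Finset V} (h : Irred G T) (hS : S ⊆ T) :
    Irred G S := fun s hs => (h s (hS hs)).imp fun _ hw => ⟨hw.1, fun t ht => hw.2 t (hS ht)⟩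

lemma max_iff {V : Type} [DecidableEq V] {G : SimpleGraph V} {S : Finset V} :
    Maximal (Irred G) S ↔ Irred G S ∧ ∀ v, v ∉ S → ¬ Irred G (insert v S) := by
  refine ⟨fun h => ⟨h.1, fun v hv hi => hv (h.2 hi (Finset.subset_insert _ _) (by simp))⟩,
    fun h => ⟨h.1, fun T hT hS v hv => ?_⟩⟩
  by_contra hn
  exact h.2 v hn (hT.mono (Finset.insert_subset hv hS))

namespace A

def nb (a : Fin 13) : ℕ := [5338, 2577, 1608, 6165, 1099, 4288, 181, 7265, 3072, 4102, 405, 394, 681].getD a.val 0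

def G : SimpleGraph (Fin 13) where
  Adj a b := (nb a).testBit b.val = true
  symm := ⟨by decide⟩
  loopless := ⟨by decide⟩

instance : DecidableRel G.Adj := fun _ _ => inferInstanceAs (Decidable (_ = _))

instance (u v : Fin 13) : DecidableRel (G ⊔ edge u v).Adj := fun a b =>
  decidable_of_iff (G.Adj a b ∨ ((a = u ∧ b = v ∨ a = v ∧ b = u) ∧ a ≠ b)) (by
    rw [sup_adj, edge_adj])

instance (H : SimpleGraph (Fin 13)) [DecidableRel H.Adj] (S : Finset (Fin 13)) :
    Decidable (Irred H S) := inferInstanceAs (Decidable (∀ s ∈ S, _))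

lemma small {S : Finset (Fin 13)} (h : S.card < 3) : S = ∅ ∨ ∃ a b, S = {a, b} := by
  obtain h | h | h : S.card = 0 ∨ S.card = 1 ∨ S.card = 2 := by omega
  · exact Or.inl (Finset.card_eq_zero.1 h)
  · obtain ⟨a, rfl⟩ := Finset.card_eq_one.1 h
    exact Or.inr ⟨a, a, by simp⟩
  · obtain ⟨a, b, -, rfl⟩ := Finset.card_eq_two.1 h
    exact Or.inr ⟨a, b, rfl⟩

lemma no3 : ∀ a b c : Fin 13, ∃ v, ¬ (v = a ∨ G.Adj a v) ∧ ¬ (v = b ∨ G.Adj b v) ∧
    ¬ (v = c ∨ G.Adj c v) := by decide +kernel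

lemma gam4 : 4 ≤ gam G := by
  refine le_csInf ⟨_, Finset.univ, fun v => ⟨v, by simp, Or.inl rfl⟩, rfl⟩ ?_
  rintro k ⟨S, hS, rfl⟩
  by_contra hc
  obtain ⟨T, h1, -, h3⟩ := Finset.exists_subsuperset_card_eq (Finset.subset_univ S)
    (show S.card ≤ 3 by omega) (by simp)
  obtain ⟨a, b, c, -, -, -, rfl⟩ := Finset.card_eq_three.1 h3
  obtain ⟨v, p, q, r⟩ := no3 a b c
  obtain ⟨s, hs, h⟩ := hS v
  have := h1 hs
  simp only [Finset.mem_insert, Finset.mem_singleton] at this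
  rcases this with rfl | rfl | rfl <;> contradiction

def hint (u v : Fin 13) : ℕ := [0, 0, 116, 0, 0, 23, 0, 0, 19, 86, 0, 142, 0, 0, 0, 271, 244, 0, 23, 311, 439, 19, 0, 439, 0, 1130, 116, 271, 0, 0, 440, 34, 0, 271, 33, 0, 0, 155, 116, 0, 244, 0, 0, 0, 244, 1127, 270, 51, 609, 244, 0, 0, 0, 0, 440, 0, 0, 804, 0, 440, 397, 777, 0, 440, 493, 23, 23, 34, 244, 804, 0, 0, 0, 34, 113, 23, 37, 0, 0, 311, 0, 1127, 0, 0, 0, 0, 19, 86, 311, 1845, 311, 0, 439, 271, 270, 440, 0, 0, 0, 33, 101, 0, 0, 0, 19, 19, 33, 51, 397, 34, 19, 33, 0, 86, 0, 0, 51, 86, 0, 0, 609, 777, 113, 86, 101, 86, 0, 101, 89, 0, 0, 439, 0, 244, 0, 23, 311, 0, 0, 101, 0, 142, 1169, 142, 0, 155, 0, 440, 37, 1845, 0, 0, 89, 142, 0, 142, 0, 1130, 116, 0, 493, 0, 311, 0, 51, 0, 1169, 142, 0].getD (u.val * 13 + v.val) 0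

def tri (u v : Fin 13) : Finset (Fin 13) :=
  {Fin.ofNat 13 (hint u v / 169), Fin.ofNat 13 (hint u v / 13), Fin.ofNat 13 (hint u v)}

lemma gam3 : ∀ u v, u ≠ v → ¬ G.Adj u v →
    ∀ w, ∃ s ∈ tri u v, w = s ∨ (G ⊔ edge u v).Adj s w := by decide +kernel

/-- A graph that is `γ`-edge-critical but not `ir`-edge-critical. -/
lemma main : ∃ (V : Type) (_ : Fintype V) (G : SimpleGraph V),
    G.Connected ∧ Critical gam G ∧ ¬ Critical ir G := by
  refine ⟨Fin 13, inferInstance, G, by decide +kernel, fun u v h1 h2 => ?_, fun h => ?_⟩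
  · have : gam (G ⊔ edge u v) ≤ (tri u v).card := Nat.sInf_le ⟨_, gam3 u v h1 h2, rfl⟩
    have : (tri u v).card ≤ 3 := Finset.card_le_three
    have := gam4
    omega
  · have h1 := h 0 2 (by decide) (by decide)
    have h2 : ir G ≤ 3 := Nat.sInf_le ⟨{0, 1, 2}, max_iff.2 (by decide +kernel), rfl⟩
    have h3 : 3 ≤ ir (G ⊔ edge 0 2) := by
      refine le_csInf ⟨_, {0, 8, 12}, max_iff.2 (by decide +kernel), rfl⟩ ?_
      rintro k ⟨S, hS, rfl⟩
      by_contra hc
      rw [max_iff] at hS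
      rcases small (not_le.1 hc) with rfl | ⟨a, b, rfl⟩
      · revert hS; decide +kernel
      · revert hS; revert a b; decide +kernel
    omega

end A

namespace B

def nb (a : Fin 10) : ℕ := [768, 644, 386, 624, 616, 344, 184, 838, 677, 411].getD a.val 0

def G : SimpleGraph (Fin 10) where
  Adj a b := (nb a).testBit b.val = true
  symm := ⟨by decide⟩
  loopless := ⟨by decide⟩

instance : DecidableRel G.Adj := fun _ _ => inferInstanceAs (Decidable (_ = _))

instance (u v : Fin 10) : DecidableRel (G ⊔ edge u v).Adj := fun a b =>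
  decidable_of_iff (G.Adj a b ∨ ((a = u ∧ b = v ∨ a = v ∧ b = u) ∧ a ≠ b)) (by
    rw [sup_adj, edge_adj])

instance (H : SimpleGraph (Fin 10)) [DecidableRel H.Adj] (S : Finset (Fin 10)) :
    Decidable (Irred H S) := inferInstanceAs (Decidable (∀ s ∈ S, _))

lemma small {S : Finset (Fin 10)} (h : S.card < 3) : S = ∅ ∨ ∃ a b, S = {a, b} := by
  obtain h | h | h : S.card = 0 ∨ S.card = 1 ∨ S.card = 2 := by omega
  · exact Or.inl (Finset.card_eq_zero.1 h)
  · obtain ⟨a, rfl⟩ := Finset.card_eq_one.1 h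
    exact Or.inr ⟨a, a, by simp⟩
  · obtain ⟨a, b, -, rfl⟩ := Finset.card_eq_two.1 h
    exact Or.inr ⟨a, b, rfl⟩

lemma ir3 : 3 ≤ ir G := by
  refine le_csInf ⟨_, {0, 1, 3}, max_iff.2 (by decide +kernel), rfl⟩ ?_
  rintro k ⟨S, hS, rfl⟩
  by_contra hc
  rw [max_iff] at hS
  rcases small (not_le.1 hc) with rfl | ⟨a, b, rfl⟩
  · revert hS; decide +kernel
  · revert hS; revert a b; decide +kernel

lemma ir2 : ∀ u v, u ≠ v → ¬ G.Adj u v → ∃ a b : Fin 10, Irred (G ⊔ edge u v) {a, b} ∧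
    ∀ w, w ∉ ({a, b} : Finset (Fin 10)) → ¬ Irred (G ⊔ edge u v) (insert w {a, b}) := by
  decide +kernel

/-- A graph that is `ir`-edge-critical but not `γ`-edge-critical. -/
lemma main : ∃ (V : Type) (_ : Fintype V) (G : SimpleGraph V),
    G.Connected ∧ Critical ir G ∧ ¬ Critical gam G := by
  refine ⟨Fin 10, inferInstance, G, by decide +kernel, fun u v h1 h2 => ?_, fun h => ?_⟩
  · obtain ⟨a, b, h⟩ := ir2 u v h1 h2
    have : ir (G ⊔ edge u v) ≤ ({a, b} : Finset (Fin 10)).card := Nat.sInf_le ⟨_, max_iff.2 h, rfl⟩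
    have := Finset.card_le_two (a := a) (b := b)
    have := ir3
    omega
  · have h1 := h 3 7 (by decide) (by decide)
    have h2 : gam G ≤ 3 := Nat.sInf_le ⟨{0, 1, 3}, by decide, rfl⟩
    have h3 : 3 ≤ gam (G ⊔ edge 3 7) := by
      refine le_csInf ⟨_, {0, 1, 3}, by decide, rfl⟩ ?_
      rintro k ⟨S, hS, rfl⟩
      by_contra hc
      rcases small (not_le.1 hc) with rfl | ⟨a, b, rfl⟩
      · revert hS; decide +kernel
      · revert hS; revert a b; decide +kernel
    omega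

end B

/-- Both classes of edge-critical graphs contain a graph outside the other class. -/
theorem result :
    (∃ (V : Type) (_ : Fintype V) (G : SimpleGraph V),
      G.Connected ∧ Critical gam G ∧ ¬ Critical ir G) ∧
    (∃ (V : Type) (_ : Fintype V) (G : SimpleGraph V),
      G.Connected ∧ Critical ir G ∧ ¬ Critical gam G) := ⟨A.main, B.main⟩

end Pool.Agent.Results.MP_7f565b_co.Both
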